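import Pool.Agent.AntiPath.Defs

set_option autoImplicit false

/-!
# MP_615643_co: the analytic core

Two kernels `a`, `b` on the cube, `a` invariant in the first variable along the edges of colour
`true`, `b` along the edges of colour `false`, `|a - b| ≤ 1`.  Then the averages of
`θ a + (1 - θ) b` over all pairs and over the diagonal are close.
-/

namespace Pool.Agent.AntiPath

theorem flip_same {n : ℕ} (x : Fin n → Bool) (i : Fin n) : flip x i i = !(x i) := by
  simp [flip]

theorem flip_ne {n : ℕ} (x : Fin n → Bool) {i j : Fin n} (h : j ≠ i) : flip x i j = x j := by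
  simp [flip, h]

theorem flip_flip {n : ℕ} (x : Fin n → Bool) (i : Fin n) : flip (flip x i) i = x := by
  funext j
  by_cases h : j = i
  · subst h; simp [flip]
  · simp [flip, h]

theorem flip_injective {n : ℕ} (i : Fin n) : Function.Injective fun x : Fin n → Bool => flip x i :=
  fun x y h => by
    have := congrArg (fun z => flip z i) h
    simpa [flip_flip] using this

/-- sums are invariant under flips -/
theorem sum_flip {n : ℕ} (i : Fin n) (f : (Fin n → Bool) → ℝ) :
    ∑ x, f (flip x i) = ∑ x, f x := by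
  refine Fintype.sum_bijective (fun x => flip x i) ?_ _ _ fun _ => rfl
  exact ⟨flip_injective i, fun y => ⟨flip y i, flip_flip y i⟩⟩

/-- `1` for equal bits, `-1` for different bits -/
def sg (u v : Bool) : ℝ := if u = v then 1 else -1

theorem sg_not_left (u v : Bool) : sg (!u) v = - sg u v := by
  cases u <;> cases v <;> simp [sg]

theorem sg_not_right (u v : Bool) : sg u (!v) = - sg u v := by
  cases u <;> cases v <;> simp [sg]

theorem sg_sq (u v : Bool) : sg u v * sg u v = 1 := by
  cases u <;> cases v <;> simp [sg]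

/-- `y` on `J`, `x` off `J` -/
def mix {n : ℕ} (J : Finset (Fin n)) (x y : Fin n → Bool) : Fin n → Bool :=
  fun i => if i ∈ J then y i else x i

theorem mix_flip_left {n : ℕ} {J : Finset (Fin n)} {i : Fin n} (hi : i ∈ J)
    (x y : Fin n → Bool) : mix J (flip x i) y = mix J x y := by
  funext j
  unfold mix
  by_cases hj : j ∈ J
  · simp [hj]
  · have : j ≠ i := fun h => hj (h ▸ hi)
    simp [hj, flip_ne x this]

/-- the data -/
structure Ker (n : ℕ) where
  a : (Fin n → Bool) → (Fin n → Bool) → ℝ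
  b : (Fin n → Bool) → (Fin n → Bool) → ℝ
  col : (Fin n → Bool) → Fin n → Bool
  θ : ℝ
  hcol : ∀ x i, col (flip x i) i = col x i
  ha : ∀ x i w, col x i = true → a (flip x i) w = a x w
  hb : ∀ x i w, col x i = false → b (flip x i) w = b x w
  hab : ∀ x w, |a x w - b x w| ≤ 1

namespace Ker

variable {n : ℕ} (K : Ker n)

/-- the kernel -/
def F (x w : Fin n → Bool) : ℝ := K.θ * K.a x w + (1 - K.θ) * K.b x w

/-- the weights of the edges -/
def e (x : Fin n → Bool) (i : Fin n) : ℝ := if K.col x i = true then -(1 - K.θ) else K.θ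

/-- the averages of the squares of the weights -/
noncomputable def σ (i : Fin n) : ℝ := (∑ x, K.e x i ^ 2) / 2 ^ n

/-- average over pairs which agree off `J` -/
noncomputable def Φ (J : Finset (Fin n)) : ℝ := (∑ x, ∑ y, K.F x (mix J x y)) / 4 ^ n

theorem e_flip (x : Fin n → Bool) (i : Fin n) : K.e (flip x i) i = K.e x i := by
  unfold e; rw [K.hcol]

theorem F_sub (x w : Fin n → Bool) (i : Fin n) :
    K.F (flip x i) w - K.e (flip x i) i * (K.a (flip x i) w - K.b (flip x i) w) =
      K.F x w - K.e x i * (K.a x w - K.b x w) := by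
  rw [K.e_flip]
  unfold F e
  by_cases h : K.col x i = true
  · simp only [h, if_true]
    rw [K.ha x i w h]
    ring
  · have h' : K.col x i = false := by simpa using h
    simp only [h', Bool.false_eq_true, if_false]
    rw [K.hb x i w h']
    ring

/-- the key identity -/
theorem key {J : Finset (Fin n)} {i : Fin n} (hi : i ∈ J) :
    ∑ x, ∑ y, K.F x (mix J x y) * sg (x i) (y i) =
      ∑ x, ∑ y, (K.a x (mix J x y) - K.b x (mix J x y)) * (K.e x i * sg (x i) (y i)) := by
  have h : ∑ x, ∑ y, (K.F x (mix J x y) - K.e x i * (K.a x (mix J x y) - K.b x (mix J x y))) *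
      sg (x i) (y i) = 0 := by
    have h1 := sum_flip i (fun x => ∑ y, (K.F x (mix J x y) - K.e x i *
      (K.a x (mix J x y) - K.b x (mix J x y))) * sg (x i) (y i))
    simp only [mix_flip_left hi, K.F_sub, flip_same, sg_not_left] at h1
    have h2 : ∀ x : Fin n → Bool, ∑ y : Fin n → Bool, (K.F x (mix J x y) - K.e x i *
        (K.a x (mix J x y) - K.b x (mix J x y))) * -sg (x i) (y i) =
        - ∑ y : Fin n → Bool, (K.F x (mix J x y) - K.e x i *
        (K.a x (mix J x y) - K.b x (mix J x y))) * sg (x i) (y i) := by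
      intro x
      rw [← Finset.sum_neg_distrib]
      exact Finset.sum_congr rfl fun y _ => by ring
    simp only [h2, Finset.sum_neg_distrib] at h1
    linarith
  rw [← sub_eq_zero, ← Finset.sum_sub_distrib, ← h]
  refine Finset.sum_congr rfl fun x _ => ?_
  rw [← Finset.sum_sub_distrib]
  exact Finset.sum_congr rfl fun y _ => by ring

/-- removing a coordinate -/
theorem erase {J : Finset (Fin n)} {i : Fin n} (hi : i ∈ J) :
    ∑ x, ∑ y, K.F x (mix (J.erase i) x y) =
      ∑ x, ∑ y, K.F x (mix J x y) * (1 + sg (x i) (y i)) := by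
  refine Finset.sum_congr rfl fun x _ => ?_
  -- pair `y` with its flip
  have h1 : ∀ y : Fin n → Bool, K.F x (mix (J.erase i) x (flip y i)) =
      K.F x (mix (J.erase i) x y) := by
    intro y
    congr 1
    funext j
    unfold mix
    by_cases hj : j ∈ J.erase i
    · have : j ≠ i := Finset.ne_of_mem_erase hj
      simp [hj, flip_ne y this]
    · simp [hj]
  have h2 : ∀ y : Fin n → Bool, K.F x (mix J x y) * (1 + sg (x i) (y i)) +
      K.F x (mix J x (flip y i)) * (1 + sg (x i) (flip y i i)) =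
      2 * K.F x (mix (J.erase i) x y) := by
    intro y
    rw [flip_same, sg_not_right]
    have hm : ∀ z : Fin n → Bool, z i = x i → mix J x z = mix (J.erase i) x z := by
      intro z hz
      funext j
      unfold mix
      by_cases hji : j = i
      · subst hji
        simp [hi, hz]
      · simp [Finset.mem_erase, hji]
    by_cases hxy : x i = y i
    · rw [hm y hxy.symm]
      simp only [sg, hxy, if_true]
      ring
    · have h3 : flip y i i = x i := by
        rw [flip_same]
        revert hxy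
        cases x i <;> cases y i <;> simp
      rw [hm (flip y i) h3, h1 y]
      simp only [sg, hxy, if_false]
      ring
  have h3 := sum_flip i (fun y => K.F x (mix J x y) * (1 + sg (x i) (y i)))
  have h4 : ∑ y, (K.F x (mix J x y) * (1 + sg (x i) (y i)) +
      K.F x (mix J x (flip y i)) * (1 + sg (x i) (flip y i i))) =
      2 * ∑ y, K.F x (mix (J.erase i) x y) := by
    rw [Finset.mul_sum]
    exact Finset.sum_congr rfl fun y _ => h2 y
  rw [Finset.sum_add_distrib, h3] at h4
  linarith

theorem Φ_sub {J : Finset (Fin n)} {i : Fin n} (hi : i ∈ J) :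
    K.Φ J - K.Φ (J.erase i) =
      - (∑ x, ∑ y, (K.a x (mix J x y) - K.b x (mix J x y)) * (K.e x i * sg (x i) (y i))) /
        4 ^ n := by
  unfold Φ
  rw [K.erase hi, ← K.key hi, ← sub_div]
  congr 1
  have : ∑ x, ∑ y, K.F x (mix J x y) * (1 + sg (x i) (y i)) =
      ∑ x, ∑ y, K.F x (mix J x y) + ∑ x, ∑ y, K.F x (mix J x y) * sg (x i) (y i) := by
    rw [← Finset.sum_add_distrib]
    refine Finset.sum_congr rfl fun x _ => ?_
    rw [← Finset.sum_add_distrib]
    exact Finset.sum_congr rfl fun y _ => by ring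
  rw [this]
  ring

/-- orthogonality of the signs -/
theorem orth (x : Fin n → Bool) {i j : Fin n} (h : i ≠ j) :
    ∑ y : Fin n → Bool, sg (x i) (y i) * sg (x j) (y j) = 0 := by
  have h1 := sum_flip i (fun y => sg (x i) (y i) * sg (x j) (y j))
  simp only [flip_same, sg_not_right, flip_ne _ h.symm] at h1
  have h2 : ∑ y : Fin n → Bool, -sg (x i) (y i) * sg (x j) (y j) =
      - ∑ y : Fin n → Bool, sg (x i) (y i) * sg (x j) (y j) := by
    rw [← Finset.sum_neg_distrib]
    exact Finset.sum_congr rfl fun y _ => by ring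
  rw [h2] at h1
  linarith

theorem card_cube : (Finset.univ : Finset (Fin n → Bool)).card = 2 ^ n := by
  simp

/-- second moment -/
theorem second (J : Finset (Fin n)) (x : Fin n → Bool) :
    ∑ y : Fin n → Bool, (∑ i ∈ J, K.e x i * sg (x i) (y i)) ^ 2 =
      2 ^ n * ∑ i ∈ J, K.e x i ^ 2 := by
  have h1 : ∀ y : Fin n → Bool, (∑ i ∈ J, K.e x i * sg (x i) (y i)) ^ 2 =
      ∑ i ∈ J, ∑ j ∈ J, (K.e x i * K.e x j) * (sg (x i) (y i) * sg (x j) (y j)) := by
    intro y
    rw [sq, Finset.sum_mul_sum]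
    exact Finset.sum_congr rfl fun i _ => Finset.sum_congr rfl fun j _ => by ring
  simp only [h1]
  rw [Finset.sum_comm, Finset.mul_sum]
  refine Finset.sum_congr rfl fun i hi => ?_
  rw [Finset.sum_comm, Finset.sum_eq_single i]
  · simp only [sg_sq]
    rw [Finset.sum_const, card_cube]
    simp only [nsmul_eq_mul]
    push_cast
    ring
  · intro j _ hj
    rw [← Finset.mul_sum, orth x (Ne.symm hj), mul_zero]
  · intro h
    exact absurd hi h

theorem sum_le (J : Finset (Fin n)) :
    ∑ i ∈ J, (K.Φ J - K.Φ (J.erase i)) ≤ √(∑ i ∈ J, K.σ i) := by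
  have h0 : ∑ i ∈ J, (K.Φ J - K.Φ (J.erase i)) =
      - (∑ x, ∑ y, (K.a x (mix J x y) - K.b x (mix J x y)) *
        (∑ i ∈ J, K.e x i * sg (x i) (y i))) / 4 ^ n := by
    rw [Finset.sum_congr rfl fun i hi => K.Φ_sub hi, ← Finset.sum_div, Finset.sum_neg_distrib]
    congr 2
    rw [Finset.sum_comm]
    refine Finset.sum_congr rfl fun x _ => ?_
    rw [Finset.sum_comm]
    exact Finset.sum_congr rfl fun y _ => by rw [Finset.mul_sum]
  rw [h0, div_le_iff₀ (by positivity)]
  let g : (Fin n → Bool) × (Fin n → Bool) → ℝ := fun q => ∑ i ∈ J, K.e q.1 i * sg (q.1 i) (q.2 i)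
  have h1 : - (∑ x, ∑ y, (K.a x (mix J x y) - K.b x (mix J x y)) *
        (∑ i ∈ J, K.e x i * sg (x i) (y i))) ≤ ∑ q, |g q| := by
    rw [Fintype.sum_prod_type, ← Finset.sum_neg_distrib]
    refine Finset.sum_le_sum fun x _ => ?_
    rw [← Finset.sum_neg_distrib]
    refine Finset.sum_le_sum fun y _ => ?_
    have h2 := K.hab x (mix J x y)
    calc -((K.a x (mix J x y) - K.b x (mix J x y)) * g (x, y))
        ≤ |(K.a x (mix J x y) - K.b x (mix J x y)) * g (x, y)| := neg_le_abs _
      _ = |K.a x (mix J x y) - K.b x (mix J x y)| * |g (x, y)| := abs_mul _ _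
      _ ≤ 1 * |g (x, y)| := by gcongr
      _ = |g (x, y)| := one_mul _
  refine h1.trans ?_
  -- Cauchy-Schwarz
  have h2 : (∑ q, |g q|) ^ 2 ≤ (4 ^ n : ℝ) * ∑ q, g q ^ 2 := by
    have := sq_sum_le_card_mul_sum_sq (s := Finset.univ) (f := fun q => |g q|)
    simp only [sq_abs] at this
    refine this.trans (le_of_eq ?_)
    congr 1
    rw [Finset.card_univ, Fintype.card_prod]
    simp only [Fintype.card_pi, Fintype.card_bool, Finset.prod_const, Finset.card_univ,
      Fintype.card_fin]
    push_cast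
    rw [← mul_pow]
    norm_num
  have h3 : ∑ q, g q ^ 2 = 4 ^ n * ∑ i ∈ J, K.σ i := by
    rw [Fintype.sum_prod_type]
    have : ∀ x, ∑ y, g (x, y) ^ 2 = 2 ^ n * ∑ i ∈ J, K.e x i ^ 2 := fun x => K.second J x
    rw [Finset.sum_congr rfl fun x _ => this x, ← Finset.mul_sum, Finset.sum_comm]
    unfold σ
    rw [← Finset.sum_div]
    have h4 : (4 : ℝ) ^ n = 2 ^ n * 2 ^ n := by rw [← mul_pow]; norm_num
    rw [h4]
    field_simp
  rw [h3] at h2
  have hs : 0 ≤ ∑ i ∈ J, K.σ i :=
    Finset.sum_nonneg fun i _ => div_nonneg (Finset.sum_nonneg fun x _ => sq_nonneg _)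
      (by positivity)
  have h5 : ∑ q, |g q| ≤ √((4 ^ n : ℝ) * (4 ^ n * ∑ i ∈ J, K.σ i)) := by
    apply Real.le_sqrt_of_sq_le h2
  refine h5.trans (le_of_eq ?_)
  rw [← mul_assoc, Real.sqrt_mul (by positivity), Real.sqrt_mul_self (by positivity)]
  ring

theorem σ_nonneg (i : Fin n) : 0 ≤ K.σ i :=
  div_nonneg (Finset.sum_nonneg fun x _ => sq_nonneg _) (by positivity)

/-- the bound for all `J` -/
theorem Φ_le (J : Finset (Fin n)) : K.Φ J ≤ K.Φ ∅ + 2 * √(∑ i ∈ J, K.σ i) := by
  induction hJ : J.card generalizing J with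
  | zero =>
    rw [Finset.card_eq_zero] at hJ
    subst hJ
    simp
  | succ m ih =>
    have hne : J.Nonempty := by
      rw [← Finset.card_pos]; omega
    set s := √(∑ i ∈ J, K.σ i) with hs
    have h1 : ∑ i ∈ J, (K.Φ J - K.Φ (J.erase i)) ≤ ∑ i ∈ J, K.σ i / s := by
      rw [← Finset.sum_div, hs, Real.div_sqrt]
      exact K.sum_le J
    obtain ⟨i, hi, h2⟩ := Finset.exists_le_of_sum_le hne h1
    have h3 := ih (J.erase i) (by rw [Finset.card_erase_of_mem hi]; omega)
    set t := √(∑ j ∈ J.erase i, K.σ j) with ht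
    have h4 : ∑ j ∈ J, K.σ j = ∑ j ∈ J.erase i, K.σ j + K.σ i :=
      (Finset.sum_erase_add J _ hi).symm
    have hs2 : s ^ 2 = ∑ j ∈ J, K.σ j :=
      Real.sq_sqrt (Finset.sum_nonneg fun j _ => K.σ_nonneg j)
    have ht2 : t ^ 2 = ∑ j ∈ J.erase i, K.σ j :=
      Real.sq_sqrt (Finset.sum_nonneg fun j _ => K.σ_nonneg j)
    have hs0 : 0 ≤ s := Real.sqrt_nonneg _
    have ht0 : 0 ≤ t := Real.sqrt_nonneg _
    have h5 : K.σ i = s ^ 2 - t ^ 2 := by rw [hs2, ht2, h4]; ring
    have h6 : K.σ i / s ≤ 2 * (s - t) := by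
      rcases hs0.eq_or_lt with h0 | h0
      · have hi0 := K.σ_nonneg i
        have : t = 0 := by nlinarith
        rw [← h0, this]; simp
      · rw [div_le_iff₀ h0, h5]
        nlinarith [sq_nonneg (s - t)]
    linarith

end Ker

end Pool.Agent.AntiPath
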