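import Mathlib

set_option autoImplicit false

/-!
# Paths in 2-edge-coloured cubes (MP_615643_co): definitions

The vertices of the `n`-cube are the functions `Fin n → Bool`.  A colouring is a symmetric function
`c : (Fin n → Bool) → (Fin n → Bool) → Bool`; only its values at adjacent vertices matter.
-/

namespace Pool.Agent.AntiPath

/-- the antipode: every coordinate is flipped -/
def antipode {n : ℕ} (x : Fin n → Bool) : Fin n → Bool := fun i => !(x i)

/-- the neighbour of `x` in the direction `i`: the coordinate `i` is flipped -/
def flip {n : ℕ} (x : Fin n → Bool) (i : Fin n) : Fin n → Bool := Function.update x i (!(x i))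

/-- `p 0, p 1, ..., p k` is a path in the cube: no repeated vertices, and consecutive vertices
differ in exactly one coordinate -/
structure IsPath {n : ℕ} (p : ℕ → (Fin n → Bool)) (k : ℕ) : Prop where
  inj : ∀ i j, i ≤ k → j ≤ k → p i = p j → i = j
  adj : ∀ i, i < k → ∃ d : Fin n, ∀ e : Fin n, (p i e ≠ p (i + 1) e ↔ e = d)

/-- the number of colour changes of `p 0, ..., p k`: the number of `i` with `i + 2 ≤ k` such that
the edges `p i, p (i + 1)` and `p (i + 1), p (i + 2)` have different colours -/
def changes {n : ℕ} (c : (Fin n → Bool) → (Fin n → Bool) → Bool) (p : ℕ → (Fin n → Bool))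
    (k : ℕ) : ℕ :=
  ((Finset.range (k - 1)).filter fun i =>
    c (p i) (p (i + 1)) ≠ c (p (i + 1)) (p (i + 2))).card

/-- the least number of colour changes on a path from `x` to `y` -/
noncomputable def minChanges {n : ℕ} (c : (Fin n → Bool) → (Fin n → Bool) → Bool)
    (x y : Fin n → Bool) : ℕ :=
  sInf {m | ∃ (k : ℕ) (p : ℕ → (Fin n → Bool)), IsPath p k ∧ p 0 = x ∧ p k = y ∧
    changes c p k = m}

/-- the fraction of the edges which have the colour `true` (every edge is counted twice, once for
each end) -/
noncomputable def density {n : ℕ} (c : (Fin n → Bool) → (Fin n → Bool) → Bool) : ℝ :=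
  (∑ x : Fin n → Bool, ∑ i : Fin n, if c x (flip x i) = true then (1 : ℝ) else 0) / (n * 2 ^ n)

end Pool.Agent.AntiPath
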