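import Pool.Agent.AntiPath.Core

set_option autoImplicit false

/-!
# MP_615643_co: walks, paths and colour changes
-/

namespace Pool.Agent.AntiPath

/-- number of changes in a list of colours -/
def chg : List Bool → ℕ
  | [] => 0
  | [_] => 0
  | a :: b :: l => (if a = b then 0 else 1) + chg (b :: l)

/-- number of changes with a first colour in front -/
def chgF (a : Bool) : List Bool → ℕ
  | [] => 0
  | b :: l => (if a = b then 0 else 1) + chgF b l

theorem chg_cons (a : Bool) (l : List Bool) : chg (a :: l) = chgF a l := by
  induction l generalizing a with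
  | nil => rfl
  | cons b l ih => simp only [chg, chgF, ih]

theorem chgF_le (a b : Bool) (l : List Bool) :
    chgF a l ≤ (if a = b then 0 else 1) + chgF b l := by
  cases l with
  | nil => simp [chgF]
  | cons d l =>
    simp only [chgF]
    cases a <;> cases b <;> cases d <;> simp <;> omega

theorem chgF_sublist {l l' : List Bool} (h : l.Sublist l') (a : Bool) :
    chgF a l ≤ chgF a l' := by
  induction h generalizing a with
  | slnil => exact le_refl _
  | cons b _ ih =>
    simp only [chgF]
    exact (chgF_le a b _).trans (Nat.add_le_add_left (ih b) _)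
  | cons_cons b _ ih =>
    simp only [chgF]
    exact Nat.add_le_add_left (ih b) _

theorem chg_le_chgF (a : Bool) (l : List Bool) : chg l ≤ chgF a l := by
  cases l with
  | nil => simp [chg]
  | cons b l =>
    rw [chg_cons]
    simp only [chgF]
    omega

theorem chg_sublist {l l' : List Bool} (h : l.Sublist l') : chg l ≤ chg l' := by
  cases l' with
  | nil => rw [List.sublist_nil.1 h]
  | cons b l' =>
    refine (chg_le_chgF b l).trans ?_
    refine (chgF_sublist h b).trans ?_
    rw [chg_cons]
    simp [chgF]

/-- the cube as a graph -/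
def cube (n : ℕ) : SimpleGraph (Fin n → Bool) where
  Adj u v := ∃ i, v = flip u i
  symm := ⟨fun u v ⟨i, h⟩ => ⟨i, by rw [h, flip_flip]⟩⟩
  loopless := ⟨fun u ⟨i, h⟩ => by
    have := congrFun h i
    rw [flip_same] at this
    revert this
    cases u i <;> simp⟩

theorem flip_diff {n : ℕ} (x : Fin n → Bool) (i e : Fin n) : x e ≠ flip x i e ↔ e = i := by
  by_cases h : e = i
  · subst h
    rw [flip_same]
    cases x e <;> simp
  · rw [flip_ne x h]
    simp [h]

variable {n : ℕ} (c : (Fin n → Bool) → (Fin n → Bool) → Bool)

/-- the colours of a walk -/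
def colors {x y : Fin n → Bool} (p : (cube n).Walk x y) : List Bool :=
  p.darts.map fun d => c d.fst d.snd

theorem bypass_darts {x y : Fin n → Bool} (p : (cube n).Walk x y) :
    p.bypass.darts.Sublist p.darts := by
  classical
  induction p with
  | nil => simp [SimpleGraph.Walk.bypass]
  | cons h p ih =>
    simp only [SimpleGraph.Walk.bypass]
    split_ifs with hs
    · have h1 := congrArg SimpleGraph.Walk.darts (p.bypass.take_spec hs)
      rw [SimpleGraph.Walk.darts_append] at h1
      rw [SimpleGraph.Walk.darts_cons]
      refine List.Sublist.cons _ (List.Sublist.trans ?_ ih)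
      rw [← h1]
      exact List.sublist_append_right _ _
    · rw [SimpleGraph.Walk.darts_cons, SimpleGraph.Walk.darts_cons]
      exact List.Sublist.cons_cons _ ih

theorem changes_eq {x y : Fin n → Bool} (p : (cube n).Walk x y) :
    changes c p.getVert p.length = chg (colors c p) := by
  induction p with
  | nil => simp [changes, colors, chg]
  | @cons u v w h p ih =>
    cases p with
    | nil => simp [changes, colors, chg]
    | @cons _ v' _ h' p =>
      have e1 : colors c (SimpleGraph.Walk.cons h (SimpleGraph.Walk.cons h' p)) =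
          c u v :: c v v' :: colors c p := by
        simp [colors]
      have e2 : colors c (SimpleGraph.Walk.cons h' p) = c v v' :: colors c p := by
        simp [colors]
      rw [e1]
      simp only [chg]
      rw [← e2, ← ih]
      unfold changes
      rw [Finset.card_filter, Finset.card_filter]
      simp only [SimpleGraph.Walk.length_cons]
      have e3 : p.length + 1 + 1 - 1 = (p.length + 1 - 1) + 1 := by omega
      rw [e3, Finset.sum_range_succ']
      simp only [SimpleGraph.Walk.getVert_cons_succ, SimpleGraph.Walk.getVert_zero]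
      rw [add_comm]
      congr 1
      simp

theorem path_of_walk {x y : Fin n → Bool} (p : (cube n).Walk x y) :
    ∃ (k : ℕ) (q : ℕ → (Fin n → Bool)), IsPath q k ∧ q 0 = x ∧ q k = y ∧
      changes c q k ≤ chg (colors c p) := by
  classical
  refine ⟨p.bypass.length, p.bypass.getVert, ⟨?_, ?_⟩, p.bypass.getVert_zero,
    p.bypass.getVert_length, ?_⟩
  · intro i j hi hj h
    exact p.bypass_isPath.getVert_injOn hi hj h
  · intro i hi
    obtain ⟨d, hd⟩ := p.bypass.adj_getVert_succ hi
    exact ⟨d, fun e => by rw [hd]; exact flip_diff _ d e⟩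
  · rw [changes_eq]
    exact chg_sublist ((bypass_darts p).map _)

/-- There is a walk from `x` to `y` with at most `m` changes, where a colour `col` is put in
front of the colours of the walk. -/
def W (y : Fin n → Bool) (m : ℕ) (col : Bool) (x : Fin n → Bool) : Prop :=
  ∃ p : (cube n).Walk x y, chgF col (colors c p) ≤ m

variable {c}

theorem W_self (y : Fin n → Bool) (col : Bool) : W c y 0 col y :=
  ⟨SimpleGraph.Walk.nil, by simp [colors, chgF]⟩

theorem W_step {y x : Fin n → Bool} {m : ℕ} (i : Fin n) (h : W c y m (c x (flip x i)) (flip x i)) :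
    W c y m (c x (flip x i)) x := by
  obtain ⟨p, hp⟩ := h
  refine ⟨SimpleGraph.Walk.cons (⟨i, rfl⟩ : (cube n).Adj x (flip x i)) p, ?_⟩
  have : colors c (SimpleGraph.Walk.cons (⟨i, rfl⟩ : (cube n).Adj x (flip x i)) p) =
      c x (flip x i) :: colors c p := rfl
  rw [this]
  simpa [chgF] using hp

theorem W_switch {y x : Fin n → Bool} {m : ℕ} {a : Bool} (b : Bool) (h : W c y m a x) :
    W c y (m + 1) b x := by
  obtain ⟨p, hp⟩ := h
  refine ⟨p, (chgF_le b a _).trans ?_⟩
  split_ifs <;> omega

theorem W_mono {y x : Fin n → Bool} {m m' : ℕ} {a : Bool} (h : W c y m a x) (hm : m ≤ m') :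
    W c y m' a x := by
  obtain ⟨p, hp⟩ := h
  exact ⟨p, hp.trans hm⟩

/-- all vertices are connected -/
theorem W_exists (x y : Fin n → Bool) (a : Bool) : ∃ m, W c y m a x := by
  have key : ∀ (N : ℕ) (x : Fin n → Bool), (Finset.univ.filter fun i => x i ≠ y i).card = N →
      ∃ m, W c y m true x := by
    intro N
    induction N with
    | zero =>
      intro x hx
      rw [Finset.card_eq_zero, Finset.filter_eq_empty_iff] at hx
      have : x = y := by
        funext i
        have := hx (Finset.mem_univ i)
        simpa using this
      subst this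
      exact ⟨0, W_self _ _⟩
    | succ N ih =>
      intro x hx
      have hne : (Finset.univ.filter fun i => x i ≠ y i).Nonempty := by
        rw [← Finset.card_pos]; omega
      obtain ⟨i, hi⟩ := hne
      have hi' : x i ≠ y i := (Finset.mem_filter.1 hi).2
      have h1 : (Finset.univ.filter fun j => flip x i j ≠ y j) =
          (Finset.univ.filter fun j => x j ≠ y j).erase i := by
        ext j
        simp only [Finset.mem_filter, Finset.mem_univ, true_and, Finset.mem_erase]
        by_cases hj : j = i
        · subst hj
          rw [flip_same]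
          revert hi'
          cases x j <;> cases y j <;> simp
        · rw [flip_ne x hj]
          simp [hj]
      obtain ⟨m, hm⟩ := ih (flip x i) (by
        rw [h1, Finset.card_erase_of_mem hi, hx]; rfl)
      exact ⟨m + 1 + 1, W_switch _ (W_step i (W_switch _ hm))⟩
  obtain ⟨m, hm⟩ := key _ x rfl
  exact ⟨m + 1, W_switch a hm⟩

variable (c)

/-- the least number of changes with the colour `col` in front -/
noncomputable def dist (col : Bool) (x y : Fin n → Bool) : ℕ := sInf {m | W c y m col x}

variable {c}

theorem dist_spec (col : Bool) (x y : Fin n → Bool) : W c y (dist c col x y) col x :=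
  Nat.sInf_mem (W_exists x y col)

theorem dist_le {col : Bool} {x y : Fin n → Bool} {m : ℕ} (h : W c y m col x) :
    dist c col x y ≤ m := Nat.sInf_le h

theorem dist_self (col : Bool) (x : Fin n → Bool) : dist c col x x = 0 :=
  Nat.le_zero.1 (dist_le (W_self x col))

theorem dist_switch (a b : Bool) (x y : Fin n → Bool) :
    dist c a x y ≤ dist c b x y + 1 :=
  dist_le (W_switch a (dist_spec b x y))

theorem dist_flip_le (hc : ∀ u v, c u v = c v u) (x y : Fin n → Bool) (i : Fin n) :
    dist c (c x (flip x i)) (flip x i) y ≤ dist c (c x (flip x i)) x y := by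
  have h := dist_spec (c := c) (c x (flip x i)) x y
  refine dist_le ?_
  have h1 : c (flip x i) (flip (flip x i) i) = c x (flip x i) := by rw [flip_flip, hc]
  have h2 := W_step (c := c) (y := y) (x := flip x i) (m := dist c (c x (flip x i)) x y) i
  rw [h1, flip_flip] at h2
  exact h2 h

theorem dist_flip (hc : ∀ u v, c u v = c v u) (x y : Fin n → Bool) (i : Fin n) :
    dist c (c x (flip x i)) (flip x i) y = dist c (c x (flip x i)) x y := by
  refine le_antisymm (dist_flip_le hc x y i) ?_
  have h := dist_flip_le hc (flip x i) y i
  have h1 : c (flip x i) (flip (flip x i) i) = c x (flip x i) := by rw [flip_flip, hc]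
  rwa [h1, flip_flip] at h

theorem exists_path (col : Bool) (x y : Fin n → Bool) :
    ∃ (k : ℕ) (q : ℕ → (Fin n → Bool)), IsPath q k ∧ q 0 = x ∧ q k = y ∧
      changes c q k ≤ dist c col x y := by
  obtain ⟨p, hp⟩ := dist_spec (c := c) col x y
  obtain ⟨k, q, h1, h2, h3, h4⟩ := path_of_walk c p
  exact ⟨k, q, h1, h2, h3, h4.trans ((chg_le_chgF col _).trans hp)⟩

theorem minChanges_spec (x y : Fin n → Bool) :
    ∃ (k : ℕ) (p : ℕ → (Fin n → Bool)), IsPath p k ∧ p 0 = x ∧ p k = y ∧
      changes c p k = minChanges c x y := by
  have : {m | ∃ (k : ℕ) (p : ℕ → (Fin n → Bool)), IsPath p k ∧ p 0 = x ∧ p k = y ∧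
      changes c p k = m}.Nonempty := by
    obtain ⟨k, q, h1, h2, h3, -⟩ := exists_path (c := c) true x y
    exact ⟨_, k, q, h1, h2, h3, rfl⟩
  exact Nat.sInf_mem this

theorem minChanges_le (col : Bool) (x y : Fin n → Bool) :
    minChanges c x y ≤ dist c col x y := by
  obtain ⟨k, q, h1, h2, h3, h4⟩ := exists_path (c := c) col x y
  refine le_trans ?_ h4
  unfold minChanges
  refine Nat.sInf_le ?_
  exact ⟨k, q, h1, h2, h3, rfl⟩

end Pool.Agent.AntiPath
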